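import Pool.Agent.helper67.RG.Spec

/-! Row SUI of helper67's plan RG (MP_2e0e07_nt): an irreducible subquotient of a direct sum is a
subquotient of a summand. -/

namespace Pool.Agent.RG.SUI

open Matrix Pool.Agent.GO Pool.Agent.AR

section

variable {F Γ d : Type*} [Field F] [Group Γ] [Fintype d] {r : ℕ} {n : Fin r → ℕ}

/-- the action of a direct sum on a coordinate -/
theorem dirSum_mulVec (V : (i : Fin r) → Γ →* Matrix (Fin (n i)) (Fin (n i)) F) (g : Γ)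
    (x : (Σ i : Fin r, Fin (n i)) → F) (i : Fin r) (a : Fin (n i)) :
    (dirSum V g *ᵥ x) ⟨i, a⟩ = (V i g *ᵥ fun b => x ⟨i, b⟩) a := by
  change ∑ j : (Σ i : Fin r, Fin (n i)), Matrix.blockDiagonal' (fun i => V i g) ⟨i, a⟩ j * x j =
    ∑ b, V i g a b * x ⟨i, b⟩
  rw [Fintype.sum_sigma, Finset.sum_eq_single i]
  · refine Finset.sum_congr rfl fun b _ => ?_
    rw [Matrix.blockDiagonal'_apply_eq]
  · intro i' _ hi'
    refine Finset.sum_eq_zero fun b _ => ?_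
    rw [Matrix.blockDiagonal'_apply_ne _ _ _ (Ne.symm hi'), zero_mul]
  · intro h
    exact absurd (Finset.mem_univ i) h

/-- the elements of `Q` which vanish in the blocks `i ≥ k` -/
def Qs (Q : Submodule F ((Σ i : Fin r, Fin (n i)) → F)) (k : ℕ) : Submodule F Q where
  carrier := {x | ∀ i : Fin r, k ≤ (i : ℕ) → ∀ a, x.1 ⟨i, a⟩ = 0}
  add_mem' := by
    intro x y hx hy i hi a
    change x.1 ⟨i, a⟩ + y.1 ⟨i, a⟩ = 0
    rw [hx i hi a, hy i hi a, add_zero]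
  zero_mem' := fun _ _ _ => rfl
  smul_mem' := by
    intro c x hx i hi a
    change c * x.1 ⟨i, a⟩ = 0
    rw [hx i hi a, mul_zero]

/-- projection to a block -/
def pr (Q : Submodule F ((Σ i : Fin r, Fin (n i)) → F)) (i : Fin r) : Q →ₗ[F] (Fin (n i) → F) where
  toFun x a := x.1 ⟨i, a⟩
  map_add' _ _ := rfl
  map_smul' _ _ := rfl

end

theorem SUI : SUI_stmt := by
  classical
  intro F Γ d _ _ _ _ r n V W hW hsub
  obtain ⟨Q, hQ, π, hπ, hπe⟩ := hsub
  have hQs : ∀ (k : ℕ) (g : Γ) (x : Q), x ∈ Qs Q k →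
      (⟨dirSum V g *ᵥ x.1, hQ g x.1 x.2⟩ : Q) ∈ Qs Q k := by
    intro k g x hx i hi a
    change (dirSum V g *ᵥ x.1) ⟨i, a⟩ = 0
    rw [dirSum_mulVec]
    have h : (fun b => x.1 ⟨i, b⟩) = 0 := funext fun b => hx i hi b
    rw [h, Matrix.mulVec_zero]
    rfl
  have hU : ∀ k : ℕ, (Qs Q k).map π = ⊥ ∨ (Qs Q k).map π = ⊤ := by
    intro k
    refine hW.2 _ ?_
    rintro g u ⟨x, hx, rfl⟩
    exact ⟨_, hQs k g x hx, hπe g x⟩
  have htop : (Qs Q r).map π = ⊤ := by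
    rw [eq_top_iff]
    intro w _
    obtain ⟨x, hx⟩ := hπ w
    exact ⟨x, fun i hi a => absurd i.2 (by omega), hx⟩
  have hne : (⊥ : Submodule F (d → F)) ≠ ⊤ := by
    obtain ⟨a⟩ := hW.1
    intro h
    have h1 : (fun _ => (1 : F)) ∈ (⊥ : Submodule F (d → F)) := by rw [h]; exact Submodule.mem_top
    have h2 := congrFun ((Submodule.mem_bot F).1 h1) a
    exact one_ne_zero h2
  have hzero : (Qs Q 0).map π = ⊥ := by
    rw [eq_bot_iff]
    rintro u ⟨x, hx, rfl⟩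
    have h1 : x = 0 := by
      apply Subtype.ext
      funext j
      exact hx j.1 (Nat.zero_le _) j.2
    rw [h1, map_zero]
    exact Submodule.zero_mem _
  -- the first `k` with full image
  have hex : ∃ k, (Qs Q k).map π = ⊤ := ⟨r, htop⟩
  obtain ⟨k, hk, hmin⟩ : ∃ k, (Qs Q k).map π = ⊤ ∧ ∀ j < k, (Qs Q j).map π ≠ ⊤ :=
    ⟨Nat.find hex, Nat.find_spec hex, fun j hj => Nat.find_min hex hj⟩
  have hkr : k ≤ r := by
    by_contra hcon
    exact hmin r (by omega) htop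
  obtain _ | j := k
  · exact absurd (hzero.symm.trans hk) hne
  have hj : (Qs Q j).map π = ⊥ := (hU j).resolve_right (hmin j (Nat.lt_succ_self j))
  obtain ⟨i, hi⟩ : ∃ i : Fin r, (i : ℕ) = j := ⟨⟨j, by omega⟩, rfl⟩
  refine ⟨i, ?_⟩
  -- the projection
  obtain ⟨p, hp⟩ : ∃ p : Qs Q (j + 1) →ₗ[F] (Fin (n i) → F), p = (pr Q i).comp (Qs Q (j + 1)).subtype :=
    ⟨_, rfl⟩
  have hpa : ∀ (x : Qs Q (j + 1)) (a : Fin (n i)), p x a = x.1.1 ⟨i, a⟩ := by
    intro x a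
    rw [hp]
    rfl
  have hker : ∀ x : Qs Q (j + 1), p x = 0 → π x.1 = 0 := by
    intro x hx
    have h1 : x.1 ∈ Qs Q j := by
      intro i' hi' a
      rcases Nat.eq_or_lt_of_le hi' with h | h
      · have h2 : i' = i := Fin.ext (by omega)
        subst h2
        rw [← hpa, hx]
        rfl
      · exact x.2 i' h a
    have h3 : π x.1 ∈ (Qs Q j).map π := ⟨_, h1, rfl⟩
    rw [hj] at h3
    exact (Submodule.mem_bot F).1 h3
  obtain ⟨s, hs⟩ := p.rangeRestrict.exists_rightInverse_of_surjective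
    (LinearMap.range_rangeRestrict p)
  have hs' : ∀ y : LinearMap.range p, p (s y) = y.1 := by
    intro y
    have h := congrArg (fun f => (f y).1) hs
    exact h
  have hps : ∀ (x : Qs Q (j + 1)) (y : LinearMap.range p), p x = y.1 →
      π (s y).1 = π x.1 := by
    intro x y hxy
    have h1 : p (s y - x) = 0 := by
      have h := p.map_sub (s y) x
      rw [hs', hxy, sub_self] at h
      exact h
    have h2 : π ((s y).1 - x.1) = 0 := hker _ h1
    have h3 := π.map_sub (s y).1 x.1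
    rw [h2] at h3
    exact (sub_eq_zero.1 h3.symm)
  have hstab : ∀ (g : Γ) (x : Qs Q (j + 1)),
      V i g *ᵥ p x = p ⟨⟨dirSum V g *ᵥ x.1.1, hQ g x.1.1 x.1.2⟩, hQs (j + 1) g x.1 x.2⟩ := by
    intro g x
    funext a
    rw [hpa]
    change _ = (dirSum V g *ᵥ x.1.1) ⟨i, a⟩
    rw [dirSum_mulVec]
    have h : p x = fun b => x.1.1 ⟨i, b⟩ := funext fun b => hpa x b
    rw [h]
  refine ⟨LinearMap.range p, ?_, π.comp ((Qs Q (j + 1)).subtype.comp s), ?_, ?_⟩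
  · rintro g y ⟨x, rfl⟩
    exact ⟨_, (hstab g x).symm⟩
  · intro w
    have h1 : w ∈ (Qs Q (j + 1)).map π := by rw [hk]; exact Submodule.mem_top
    obtain ⟨x, hx, hxw⟩ := h1
    refine ⟨⟨p ⟨x, hx⟩, ⟨x, hx⟩, rfl⟩, ?_⟩
    change π (s _).1 = w
    rw [hps ⟨x, hx⟩ _ rfl]
    exact hxw
  · rintro g ⟨y, x, hx⟩
    subst hx
    change π (s _).1 = W g *ᵥ π (s _).1
    rw [hps x ⟨p x, x, rfl⟩ rfl]
    rw [hps ⟨⟨dirSum V g *ᵥ x.1.1, hQ g x.1.1 x.1.2⟩, hQs (j + 1) g x.1 x.2⟩ _ (hstab g x).symm]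
    exact hπe g x.1

end Pool.Agent.RG.SUI
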